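import Pool.Agent.K9h56.NI.Main

/-!
Chamberland's map: almost every orbit which stays above `10^30` comes infinitely often to within
`10^4 / f^k(x)` of an integer, and the set of the points of `[m, m+1)` which do not come so near in the
first `n + 1` terms of the orbit, and stay above `10^30`, is exponentially small in `n`.
-/

set_option autoImplicit false

namespace Pool.Agent.Results.MP_2dc536_an.EscapeOnlyNearIntegers

open Set MeasureTheory Filter Topology

theorem result :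
    ∀ f : ℝ → ℝ, (∀ x : ℝ, f x = x + 1/4 - (x/2 + 1/4) * Real.cos (Real.pi * x)) →
      (∀ m n : ℕ, volume {x : ℝ | x ∈ Ico (m : ℝ) (m + 1) ∧ ∀ k : ℕ, k ≤ n →
          (10 : ℝ) ^ 30 ≤ f^[k] x ∧ ∀ j : ℕ, 10 ^ 4 / f^[k] x ≤ |f^[k] x - j|} ≤
        ENNReal.ofReal ((9995 / 10000) ^ n * √((m : ℝ) / 10 ^ 30))) ∧
      (∀ᵐ x : ℝ, (∀ᶠ k in atTop, (10 : ℝ) ^ 30 ≤ f^[k] x) →
        ∃ᶠ k in atTop, ∃ j : ℕ, |f^[k] x - j| < 10 ^ 4 / f^[k] x) := by
  intro f hf
  have hfg : f = Pool.Agent.H934R2.Ch.f := by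
    funext x
    rw [hf x]
    unfold Pool.Agent.H934R2.Ch.f
    ring
  subst hfg
  exact ⟨Pool.Agent.K9h56.NI.quant, Pool.Agent.K9h56.NI.ae_near⟩

end Pool.Agent.Results.MP_2dc536_an.EscapeOnlyNearIntegers
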