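import Pool.Agent.K9h56.ED.Main

/-!
Chamberland's map: every growth that is possible with ratios in a compact part of `(1/2, 3/2)`
occurs in the escaping set `E`, in every interval `[n, n+1]`, `n ≥ 3`, on a set of Hausdorff
dimension one.
-/

set_option autoImplicit false

namespace Pool.Agent.Results.MP_2dc536_an.PrescribedGrowthDimension

open Set Filter Topology
open Pool.Agent.K9h56.ED

theorem result :
    ∀ f : ℝ → ℝ, (∀ x : ℝ, f x = x + 1/4 - (x/2 + 1/4) * Real.cos (Real.pi * x)) →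
    ∀ a b c : ℝ, 0 < a → a < b → b < c →
      f a = a → f b = b → f c = c →
      (∀ x : ℝ, 0 < x → x ≤ c → f x = x → x = a ∨ x = b ∨ x = c) →
    ∀ n : ℕ, 3 ≤ n →
    ∀ N : ℕ → ℝ, Tendsto N atTop atTop →
    ∀ q p : ℝ, 1/2 < q → p < 3/2 →
      (∀ᶠ k in atTop, q * N k ≤ N (k + 1) ∧ N (k + 1) ≤ p * N k) →
      dimH {x : ℝ | x ∈ Icc (n : ℝ) (n + 1) ∧ (c ≤ x ∧ ∀ k : ℕ, f^[k] x ∉ Icc a c) ∧
        Tendsto (fun k : ℕ => f^[k] x / N k) atTop (𝓝 1)} = 1 := by
  intro f hf a b c ha hab hbc _ _ _ hmin n hn N hN q p hq hp h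
  have hfg : f = g := by
    funext x
    rw [hf x]
    rfl
  subst hfg
  have hc3 : c < 3 := fix_lt_three ha hab hbc hmin
  have hn' : (3 : ℝ) ≤ n := by exact_mod_cast hn
  apply le_antisymm
  · refine (dimH_mono (subset_univ _)).trans ?_
    rw [Real.dimH_univ]
  · rw [← dim_eq_one hn hN hq hp h]
    apply dimH_mono
    rintro x ⟨hx, hx3, hxN⟩
    refine ⟨hx, ⟨by linarith [hx.1], fun k hk => ?_⟩, hxN⟩
    have h1 := hx3 k
    have h2 := hk.2
    linarith

end Pool.Agent.Results.MP_2dc536_an.PrescribedGrowthDimension
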